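import Pool.Agent.Lib.MP_524519_ag.DU5.TR.Iface

/-! # Module BCH: base change of a point -/

set_option autoImplicit false

namespace Pool.Agent.DU5.TR.H75

open MvPowerSeries

section

variable {k A K : Type} [Field k] [CommRing A] [Algebra k A] [CommRing K] [Algebra k K]

/-- Evaluation commutes with base change. -/
theorem ev_map {n : ℕ} (j : A →ₐ[k] K) {x : Fin n → PowerSeries A}
    (hx : ∀ i, PowerSeries.constantCoeff (x i) = 0) (h : O k n) :
    PowerSeries.map (j : A →+* K) (ev x h) =
      ev (fun l => PowerSeries.map (j : A →+* K) (x l)) h := by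
  have h0 : HasSubst x := hs hx
  have h1 : HasSubst (fun l => PowerSeries.map (j : A →+* K) (x l)) := by
    refine hs (fun i => ?_)
    rw [← PowerSeries.coeff_zero_eq_constantCoeff_apply, PowerSeries.coeff_map,
      PowerSeries.coeff_zero_eq_constantCoeff_apply, hx i, map_zero]
  unfold ev
  change MvPowerSeries.map (j : A →+* K) (MvPowerSeries.subst x h) = _
  apply MvPowerSeries.ext
  intro e
  rw [coeff_map, coeff_subst h0, coeff_subst h1]
  have h2 : ∀ r : A, (j : A →+* K) r = (j : A →+* K).toAddMonoidHom r := fun _ => rfl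
  rw [h2, AddMonoidHom.map_finsum _ (coeff_subst_finite h0 _ _)]
  refine finsum_congr fun d => ?_
  rw [← h2]
  have h3 : (MvPowerSeries.coeff e) (d.prod fun s m => PowerSeries.map (j : A →+* K) (x s) ^ m) =
      (j : A →+* K) ((MvPowerSeries.coeff e) (d.prod fun s m => x s ^ m)) := by
    rw [← coeff_map]
    congr 1
    rw [Finsupp.prod, Finsupp.prod, map_prod]
    refine Finset.prod_congr rfl fun s _ => ?_
    rw [map_pow]
    rfl
  rw [h3]
  exact map_smul j _ _

theorem derivative_map (j : A →ₐ[k] K) (s : PowerSeries A) :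
    PowerSeries.derivative K (PowerSeries.map (j : A →+* K) s) =
      PowerSeries.map (j : A →+* K) (PowerSeries.derivative A s) := by
  ext m
  rw [PowerSeries.coeff_derivative, PowerSeries.coeff_map, PowerSeries.coeff_map,
    PowerSeries.coeff_derivative, map_mul]
  simp

theorem dl_map (j : A →ₐ[k] K) (D : Derivation k A A) (D' : Derivation k K K)
    (hD : ∀ a, D' (j a) = j (D a)) (s : PowerSeries A) :
    dl D' (PowerSeries.map (j : A →+* K) s) = PowerSeries.map (j : A →+* K) (dl D s) := by
  ext m
  unfold dl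
  rw [PowerSeries.coeff_mk, PowerSeries.coeff_map, PowerSeries.coeff_map, PowerSeries.coeff_mk]
  exact hD _

theorem jm_map (j : A →ₐ[k] K) (D : Derivation k A A) (D' : Derivation k K K)
    (hD : ∀ a, D' (j a) = j (D a)) (x : Fin 3 → PowerSeries A) (i : Fin 3) :
    jm D' (fun l => PowerSeries.map (j : A →+* K) (x l)) i =
      PowerSeries.map (j : A →+* K) (jm D x i) := by
  unfold jm
  rw [map_sub, map_mul, map_mul, derivative_map, derivative_map, dl_map j D D' hD,
    dl_map j D D' hD]

end

/-- Module BCH. -/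
theorem bch : BchStatement := by
  intro k A K _ _ _ _ _ j D D' hD f x i c v hdat
  obtain ⟨hx, hf, w, hw, hwv⟩ := hdat
  refine ⟨⟨fun l => ?_, ?_, PowerSeries.map (j : A →+* K) w, ?_, ?_⟩, fun h m => ?_⟩
  · rw [← PowerSeries.coeff_zero_eq_constantCoeff_apply, PowerSeries.coeff_map,
      PowerSeries.coeff_zero_eq_constantCoeff_apply, hx l, map_zero]
  · rw [← ev_map j hx, hf, map_zero]
  · rw [← ev_map j hx, hw, map_mul, map_pow, PowerSeries.map_X]
  · rw [← map_mul, hwv, map_one]
  · unfold Pol
    rw [← ev_map j hx, jm_map j D D' hD, ← map_mul, ← map_mul, PowerSeries.coeff_map]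
    rfl

end Pool.Agent.DU5.TR.H75
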