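import Pool.Agent.Lib.MP_524519_ag.DU5.TR.Iface

/-! # Module DTC: points with a non-zero determinant detect independent classes -/

set_option autoImplicit false

namespace Pool.Agent.DU5.TR.H75

open MvPowerSeries

section

variable {k A : Type} [Field k] [CommRing A] [Algebra k A]

theorem ev_sum_smul {n s : ℕ} {x : Fin n → PowerSeries A}
    (hx : ∀ i, PowerSeries.constantCoeff (x i) = 0) (h : Fin s → O k n) (e : Fin s → k) :
    ev x (∑ b, e b • h b) = ∑ b, e b • ev x (h b) := by
  unfold ev
  rw [← coe_substAlgHom (hs hx), map_sum]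
  refine Finset.sum_congr rfl fun b _ => ?_
  exact map_smul _ _ _

theorem coeff_smul' (e : k) (s : PowerSeries A) (m : ℕ) :
    PowerSeries.coeff m (e • s) = e • PowerSeries.coeff m s := by
  rw [← algebraMap_smul A e s, ← algebraMap_smul A e (PowerSeries.coeff m s)]
  exact map_smul _ _ _

/-- Linearity of the coefficients of the form. -/
theorem Pol_sum {s : ℕ} (D : Derivation k A A) {x : Fin 3 → PowerSeries A}
    (hx : ∀ i, PowerSeries.constantCoeff (x i) = 0) (i : Fin 3) (v : PowerSeries A)
    (h : Fin s → O k 3) (e : Fin s → k) (m : ℕ) :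
    Pol D x i v (∑ b, e b • h b) m = ∑ b, e b • Pol D x i v (h b) m := by
  unfold Pol
  rw [ev_sum_smul hx, Finset.mul_sum, Finset.sum_mul, map_sum]
  refine Finset.sum_congr rfl fun b _ => ?_
  rw [← coeff_smul', mul_smul_comm, smul_mul_assoc]

/-- Without a pole the coefficients vanish. -/
theorem Pol_eq_zero {D : Derivation k A A} {f h : O k 3} {x : Fin 3 → PowerSeries A} {i : Fin 3}
    {c : ℕ} {v : PowerSeries A} (hd : Dat f x i c v) (ho : OrdGe 0 f h D x) {m : ℕ} (hm : m < c) :
    Pol D x i v h m = 0 := by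
  obtain ⟨-, -, w, hw, hwv⟩ := hd
  obtain ⟨g, hg⟩ := ho
  have h1 := hg i
  rw [pow_zero, one_mul, hw] at h1
  have h2 : v * ev x h * jm D x i = PowerSeries.X ^ c * g := by
    calc v * ev x h * jm D x i = v * (ev x h * jm D x i) := by ring
      _ = PowerSeries.X ^ c * g * (w * v) := by rw [← h1]; ring
      _ = PowerSeries.X ^ c * g := by rw [hwv, mul_one]
  unfold Pol
  rw [h2, PowerSeries.coeff_X_pow_mul', if_neg (by omega)]

/-- The point of the data is not zero. -/
theorem Dat_ne_zero [Nontrivial A] {f : O k 3} {x : Fin 3 → PowerSeries A} {i : Fin 3}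
    {c : ℕ} {v : PowerSeries A} (hd : Dat f x i c v) (hc : 0 < c) : x ≠ 0 := by
  rintro rfl
  obtain ⟨-, -, w, hw, hwv⟩ := hd
  have h1 : ev (0 : Fin 3 → PowerSeries A) (pderiv k i f) =
      (MvPowerSeries.C (constantCoeff (pderiv k i f))).map (algebraMap k A) :=
    subst_zero_eq_C_constantCoeff (τ := Unit)
  rw [h1] at hw
  have h2 : (MvPowerSeries.C (σ := Unit) (constantCoeff (pderiv k i f))).map (algebraMap k A) =
      PowerSeries.C (algebraMap k A (constantCoeff (pderiv k i f))) :=
    MvPowerSeries.map_C _ _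
  have hw' : PowerSeries.C (algebraMap k A (constantCoeff (pderiv k i f))) =
      PowerSeries.X ^ c * w := h2.symm.trans hw
  have h3 : algebraMap k A (constantCoeff (pderiv k i f)) = 0 := by
    have := congrArg (PowerSeries.coeff 0) hw'
    rw [PowerSeries.coeff_X_pow_mul', if_neg (by omega)] at this
    simpa using this
  rw [h3, map_zero] at hw'
  have h4 : (PowerSeries.X : PowerSeries A) ^ c = 0 := by
    calc (PowerSeries.X : PowerSeries A) ^ c = PowerSeries.X ^ c * (w * v) := by
          rw [hwv, mul_one]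
      _ = (PowerSeries.X ^ c * w) * v := by ring
      _ = 0 := by rw [← hw', zero_mul]
  have h5 := congrArg (PowerSeries.coeff c) h4
  rw [PowerSeries.coeff_X_pow_self] at h5
  simp at h5

end

/-- Module DTC. -/
theorem dtc (h1 : NicfStatement) (h2 : BchStatement) (h3 : IndStatement) : DtcStatement := by
  intro p _ F _ _ f n h x i c r v hdat hdet
  rw [h3 n F (IS p f 0)]
  refine ⟨h, fun e he => ?_⟩
  obtain ⟨D', hD', hnice⟩ := h1 p F
  have key : ∀ a, ∑ b, e b * PowerSeries.constantCoeff
      (Pol (PowerSeries.derivative F) (x a) (i a) (v a) (h b) (r a)) = 0 := by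
    intro a
    obtain ⟨hda, hra⟩ := hdat a
    let j : PowerSeries F →ₐ[F] FractionRing (PowerSeries F) :=
      IsScalarTower.toAlgHom F (PowerSeries F) (FractionRing (PowerSeries F))
    have hj : Function.Injective j :=
      IsFractionRing.injective (PowerSeries F) (FractionRing (PowerSeries F))
    obtain ⟨hd2, hpol⟩ := h2 F (PowerSeries F) (FractionRing (PowerSeries F)) j
      (PowerSeries.derivative F) D' hD' f (x a) (i a) (c a) (v a) hda
    have hne := Dat_ne_zero hd2 (by omega)
    have hord := he (FractionRing (PowerSeries F)) D'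
      (fun l => PowerSeries.map (j : PowerSeries F →+* FractionRing (PowerSeries F)) (x a l))
      hnice hd2.1 hne hd2.2.1
    rw [Nat.zero_mul, Nat.zero_div] at hord
    have h4 := Pol_eq_zero hd2 hord hra
    rw [hpol] at h4
    have h5 : Pol (PowerSeries.derivative F) (x a) (i a) (v a) (∑ b, e b • h b) (r a) = 0 :=
      hj (h4.trans (map_zero j).symm)
    rw [Pol_sum _ hda.1] at h5
    have h6 := congrArg PowerSeries.constantCoeff h5
    rw [map_sum, map_zero] at h6
    rw [← h6]
    refine Finset.sum_congr rfl fun b _ => ?_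
    rw [PowerSeries.constantCoeff_smul, smul_eq_mul]
  refine Matrix.eq_zero_of_mulVec_eq_zero hdet ?_
  funext a
  rw [Matrix.mulVec, dotProduct, Pi.zero_apply, ← key a]
  refine Finset.sum_congr rfl fun b _ => ?_
  rw [Matrix.of_apply, mul_comm]

end Pool.Agent.DU5.TR.H75
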